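import Pool.Agent.Helper78.KX.Defs

/-!
# Multiples of a geometric progression: exponential moments of blocks
-/

set_option autoImplicit false

namespace Pool.Agent.Helper80.KX

open MeasureTheory Set Filter Topology Pool.Agent.Helper18.GP Pool.Agent.Helper82.FK Pool.Agent.Helper78.KX

/-- the cluster estimate for a polynomial whose mean is not normalised -/
theorem norm_cluster {θ : ℝ} {D m : ℕ} {C s₀ : ℝ}
    (hcl : ∀ (c : ℤ → ℂ) (g : ℝ → ℝ) (s : ℝ), (∀ t, gp D c t = g t) → (∀ t, 0 ≤ g t) →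
      c 0 = 1 → nm D c ≤ 1 + s → s ≤ s₀ → ∀ N : ℕ, N * s ^ m ≤ 1 → ∀ (κ : ℝ) (σ : ℕ → ℝ) (p q : ℝ), 0 < κ →
      1 ≤ κ * (q - p) → |(∫ x in p..q, ∏ n ∈ Finset.range N, g (κ * x * θ ^ n + σ n)) - (q - p)| ≤ C * s * (q - p))
    {g : ℝ → ℝ} {W s M : ℝ} (hg : TP D W (fun t => (g t : ℂ))) (hg0 : ∀ t, 0 ≤ g t) (hM : M = ∫ t in (0 : ℝ)..1, g t)
    (hM0 : 0 < M) (hW : W ≤ M * (1 + s)) (hs : s ≤ s₀) {N : ℕ} (hN : N * s ^ m ≤ 1) {κ : ℝ} (σ : ℕ → ℝ) {p q : ℝ}
    (hκ : 0 < κ) (hpq : 1 ≤ κ * (q - p)) :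
    |(∫ x in p..q, ∏ n ∈ Finset.range N, g (κ * x * θ ^ n + σ n)) - M ^ N * (q - p)| ≤ M ^ N * (C * s * (q - p)) := by
  obtain ⟨d, hd1, hd2⟩ := hg
  have hd0 : d 0 = M := by rw [hM]; exact coeff_zero hd1
  have hMc : (M : ℂ) ≠ 0 := by exact_mod_cast hM0.ne'
  have h1 : ∀ t, gp D (fun k => (M : ℂ)⁻¹ * d k) t = ((M⁻¹ * g t : ℝ) : ℂ) := by
    intro t
    have h2 : gp D (fun k => (M : ℂ)⁻¹ * d k) t = (M : ℂ)⁻¹ * gp D d t := by
      unfold gp
      rw [Finset.mul_sum]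
      exact Finset.sum_congr rfl fun k _ => by ring
    rw [h2, hd1 t]
    push_cast
    rfl
  have h2 : nm D (fun k => (M : ℂ)⁻¹ * d k) ≤ 1 + s := by
    have h3 : nm D (fun k => (M : ℂ)⁻¹ * d k) = M⁻¹ * nm D d := by
      unfold nm
      rw [Finset.mul_sum]
      refine Finset.sum_congr rfl fun k _ => ?_
      rw [norm_mul, norm_inv, Complex.norm_real, Real.norm_eq_abs, abs_of_pos hM0]
    rw [h3, inv_mul_le_iff₀ hM0]
    exact hd2.trans hW
  have h3 := hcl (fun k => (M : ℂ)⁻¹ * d k) (fun t => M⁻¹ * g t) s h1 (fun t => mul_nonneg (inv_nonneg.2 hM0.le) (hg0 t))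
    (by show (M : ℂ)⁻¹ * d 0 = 1; rw [hd0, inv_mul_cancel₀ hMc]) h2 hs N hN κ σ p q hκ hpq
  have h4 : ∀ x : ℝ, ∏ n ∈ Finset.range N, g (κ * x * θ ^ n + σ n) =
      M ^ N * ∏ n ∈ Finset.range N, (M⁻¹ * g (κ * x * θ ^ n + σ n)) := by
    intro x
    rw [Finset.prod_mul_distrib, Finset.prod_const, Finset.card_range, ← mul_assoc, ← mul_pow, mul_inv_cancel₀ hM0.ne',
      one_pow, one_mul]
  simp_rw [h4]
  rw [intervalIntegral.integral_const_mul, ← mul_sub, abs_mul, abs_of_pos (pow_pos hM0 N)]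
  exact mul_le_mul_of_nonneg_left h3 (pow_pos hM0 N).le

theorem pow_lower {M X E B : ℝ} {L : ℕ} (hX : 1 ≤ X) (hM : 0 < M) (h : X * (1 - 2 * E) ≤ M) (hE0 : 0 ≤ E)
    (hE : E ≤ 1 / 8) (hL : L * E ≤ B) : Real.exp (L * Real.log X - 4 * B) ≤ M ^ L := by
  have h7 : Real.log (X * (1 - 2 * E)) ≤ Real.log M := Real.log_le_log (by nlinarith) h
  rw [Real.log_mul (by linarith) (by linarith)] at h7
  have h8 : -(4 * E) ≤ Real.log (1 - 2 * E) := by
    have h9 := Real.one_sub_inv_le_log_of_pos (show 0 < 1 - 2 * E by linarith)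
    have h10 : (1 - 2 * E)⁻¹ ≤ 1 + 4 * E := by
      rw [inv_le_iff_one_le_mul₀ (by linarith)]
      nlinarith
    linarith
  have h11 : M ^ L = Real.exp (L * Real.log M) := by
    rw [mul_comm, Real.exp_mul, Real.exp_log hM, Real.rpow_natCast]
  rw [h11]
  refine Real.exp_le_exp.2 ?_
  have h12 : (L : ℝ) * (Real.log X - 4 * E) ≤ L * Real.log M :=
    mul_le_mul_of_nonneg_left (by linarith) (Nat.cast_nonneg L)
  linarith

theorem pow_upper {M X E B : ℝ} {L : ℕ} (hX : 1 ≤ X) (hM : 0 < M) (h : M ≤ X * (1 + 2 * E)) (hE0 : 0 ≤ E)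
    (hL : L * E ≤ B) : M ^ L ≤ Real.exp (L * Real.log X + 4 * B) := by
  have h7 : Real.log M ≤ Real.log (X * (1 + 2 * E)) := Real.log_le_log hM h
  rw [Real.log_mul (by linarith) (by linarith)] at h7
  have h8 := Real.log_le_sub_one_of_pos (show 0 < 1 + 2 * E by linarith)
  have h11 : M ^ L = Real.exp (L * Real.log M) := by
    rw [mul_comm, Real.exp_mul, Real.exp_log hM, Real.rpow_natCast]
  rw [h11]
  refine Real.exp_le_exp.2 ?_
  have h12 : (L : ℝ) * Real.log M ≤ L * (Real.log X + 2 * E) :=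
    mul_le_mul_of_nonneg_left (by linarith) (Nat.cast_nonneg L)
  have h13 : 0 ≤ (L : ℝ) * E := by positivity
  linarith

theorem exp_low {u v : ℝ} (hu0 : 0 ≤ u) (hu : u ≤ 1 / 2) (hv : v = 2 * u) : Real.exp (-v) ≤ 1 - u := by
  rw [hv, Real.exp_neg, inv_le_iff_one_le_mul₀ (Real.exp_pos _)]
  have h7 := Real.add_one_le_exp (2 * u)
  nlinarith

theorem exp_up {u v : ℝ} (hu0 : 0 ≤ u) (hv : v = 2 * u) : 1 + u ≤ Real.exp v := by
  have h6 := Real.add_one_le_exp v
  linarith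

theorem nm_arith {A t E W K C₁ : ℝ} (hAt0 : 0 ≤ A * t) (htA : A * t ≤ 1 / 16) (hAK : A * t ≤ K * t) (hWA : W ≤ A * t)
    (hE0 : 0 ≤ E) (hE : E ≤ 2 * K * t) (hE2 : E ≤ 1 / 8) (hC : C₁ = 16 * K) :
    Real.exp W + E ≤ (1 - 2 * E) * (1 + C₁ * t) := by
  have h1 : Real.exp W ≤ 1 + 2 * (A * t) := by
    have h2 : Real.exp W ≤ Real.exp (A * t) := Real.exp_le_exp.2 hWA
    have h3 := Pool.Agent.Helper87.GP.exp_le_quad (x := A * t) (by rw [abs_of_nonneg hAt0]; linarith)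
    nlinarith
  have h0 : 0 ≤ K * t := by linarith
  have h5 : C₁ * t = 16 * (K * t) := by rw [hC]; ring
  have h4 : (1 - 2 * E) * (1 + C₁ * t) ≥ 1 - 2 * E + 3 / 4 * (C₁ * t) := by
    have h6 : 0 ≤ C₁ * t := by rw [h5]; linarith
    nlinarith
  rw [h5] at h4
  rw [h5]
  linarith

theorem block_mgf_of {θ : ℝ}
    (few : ∀ H m : ℕ, ∃ c : ℝ, 0 < c ∧ ∀ h : ℤ, h ≠ 0 → |h| ≤ H → Gd θ H m c h)
    (cluster : ∀ (H k : ℕ) {c₀ : ℝ}, 0 < c₀ → (∀ h : ℤ, h ≠ 0 → |h| ≤ H → Gd θ H k c₀ h) →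
      ∃ C s₀ : ℝ, 0 < C ∧ 0 < s₀ ∧ ∀ (c : ℤ → ℂ) (g : ℝ → ℝ) (s : ℝ), (∀ t, gp H c t = g t) → (∀ t, 0 ≤ g t) →
      c 0 = 1 → nm H c ≤ 1 + s → s ≤ s₀ → ∀ N : ℕ, N * s ^ k ≤ 1 → ∀ (κ : ℝ) (σ : ℕ → ℝ) (p q : ℝ), 0 < κ →
      1 ≤ κ * (q - p) → |(∫ x in p..q, ∏ n ∈ Finset.range N, g (κ * x * θ ^ n + σ n)) - (q - p)| ≤ C * s * (q - p))
    (H : ℕ) (c : ℤ → ℂ) (p : ℝ → ℝ)
    (hp : ∀ t, gp H c t = p t) (hc0 : c 0 = 0) (k : ℕ) :
    ∃ C t₀ : ℝ, 0 < C ∧ 0 < t₀ ∧ t₀ ≤ 1 ∧ ∀ t, 0 ≤ t → t ≤ t₀ → ∀ L : ℕ, L * t ^ k ≤ 1 → ∀ (κ : ℝ) (σ : ℕ → ℝ) (a b : ℝ),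
      0 < κ → 1 ≤ κ * (b - a) →
      (b - a) * Real.exp (L * lam p t - C * t) ≤
        (∫ x in a..b, Real.exp (t * ∑ n ∈ Finset.range L, p (κ * x * θ ^ n + σ n))) ∧
      (∫ x in a..b, Real.exp (t * ∑ n ∈ Finset.range L, p (κ * x * θ ^ n + σ n))) ≤
        (b - a) * Real.exp (L * lam p t + C * t) := by
  set A : ℝ := max 1 (nm H c) with hA
  have hA1 : 1 ≤ A := le_max_left _ _
  have hA0 : 0 < A := by linarith
  have hnmA : nm H c ≤ A := le_max_right _ _
  set D : ℕ := k * (H + 1) + 1 with hD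
  obtain ⟨c₀, hc₀, hfew⟩ := few D (k + 1)
  obtain ⟨C, s₀, hC, hs₀, hcl⟩ := cluster D (k + 1) hc₀ hfew
  -- E = 2 (A t)^(k+1), s = C₁ t
  set C₁ : ℝ := 16 * A ^ (k + 1) with hC₁
  have hAk : A ≤ A ^ (k + 1) := by
    calc A = A ^ 1 := (pow_one A).symm
      _ ≤ A ^ (k + 1) := pow_le_pow_right₀ hA1 (by omega)
  have hAk1 : 1 ≤ A ^ (k + 1) := hA1.trans hAk
  have hC₁1 : 1 ≤ C₁ := by rw [hC₁]; linarith
  have hC₁0 : 0 < C₁ := by linarith
  set t₀ : ℝ := min (1 / (16 * A)) (min (1 / C₁ ^ (k + 1)) (min (s₀ / C₁) (1 / (2 * C * C₁)))) with ht₀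
  have ht₀0 : 0 < t₀ := by positivity
  have ht₀1 : t₀ ≤ 1 := by
    refine (min_le_left _ _).trans ?_
    rw [div_le_one (by positivity)]
    linarith
  refine ⟨8 * A ^ (k + 1) + 2 * C * C₁, t₀, by positivity, ht₀0, ht₀1, ?_⟩
  intro t ht0 ht L hL κ σ a b hκ hab
  have htA : A * t ≤ 1 / 16 := by
    have h1 := ht.trans (min_le_left _ _)
    rw [le_div_iff₀ (by positivity)] at h1
    linarith
  have htk : C₁ ^ (k + 1) * t ≤ 1 := by
    have h1 := ht.trans ((min_le_right _ _).trans (min_le_left _ _))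
    rw [le_div_iff₀ (by positivity)] at h1
    linarith
  have hts : C₁ * t ≤ s₀ := by
    have h1 := ht.trans ((min_le_right _ _).trans ((min_le_right _ _).trans (min_le_left _ _)))
    rw [le_div_iff₀ (by positivity)] at h1
    linarith
  have htC : C * (C₁ * t) ≤ 1 / 2 := by
    have h1 := ht.trans ((min_le_right _ _).trans ((min_le_right _ _).trans (min_le_right _ _)))
    rw [le_div_iff₀ (by positivity)] at h1
    linarith
  have ht1 : t ≤ 1 := ht.trans ht₀1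
  have hba : 0 < b - a := by
    by_contra hcon
    push Not at hcon
    have := mul_nonneg hκ.le (neg_nonneg.2 hcon)
    linarith
  set E : ℝ := 2 * (A * t) ^ (k + 1) with hE
  have hAt0 : 0 ≤ A * t := by positivity
  have hE0 : 0 ≤ E := by positivity
  have hE1 : E ≤ 2 * A ^ (k + 1) * t := by
    have h3 : E = 2 * A ^ (k + 1) * t ^ (k + 1) := by rw [hE, mul_pow]; ring
    rw [h3]
    have h4 : t ^ (k + 1) ≤ t := pow_le_of_le_one ht0 ht1 (by omega)
    gcongr
  have hE2 : E ≤ 1 / 8 := by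
    have h3 : (A * t) ^ (k + 1) ≤ A * t := pow_le_of_le_one hAt0 (by linarith) (by omega)
    rw [hE]
    linarith
  have hLE : L * E ≤ 2 * A ^ (k + 1) * t := by
    have h3 : L * E = 2 * A ^ (k + 1) * t * (L * t ^ k) := by rw [hE, mul_pow]; ring
    rw [h3]
    exact mul_le_of_le_one_right (by positivity) hL
  have hLs : L * (C₁ * t) ^ (k + 1) ≤ 1 := by
    have h3 : L * (C₁ * t) ^ (k + 1) = (C₁ ^ (k + 1) * t) * (L * t ^ k) := by rw [mul_pow]; ring
    rw [h3]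
    exact mul_le_one₀ htk (by positivity) hL
  have hbd : ∀ x, |p x| ≤ A := fun x => by
    have h1 := norm_gp_le H c x
    rw [hp x, Complex.norm_real, Real.norm_eq_abs] at h1
    exact h1.trans hnmA
  have hq : ∀ x, |t * p x| ≤ A * t := fun x => by
    rw [abs_mul, abs_of_nonneg ht0, mul_comm]
    exact mul_le_mul_of_nonneg_right (hbd x) ht0
  have hpc : Continuous p := by
    have h4 : p = fun t => (gp H c t).re := by
      funext t
      rw [hp t, Complex.ofReal_re]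
    rw [h4]
    exact Complex.continuous_re.comp (gp_cont H c)
  have hpm : ∫ x in (0 : ℝ)..1, p x = 0 := by
    have := coeff_zero hp
    rw [hc0] at this
    exact_mod_cast this.symm
  set T : ℝ → ℝ := fun x => ∑ i ∈ Finset.range (k + 1), (t * p x) ^ i / (i.factorial : ℝ) with hT
  have hTc : Continuous T := by
    rw [hT]
    exact continuous_finsetSum _ fun i _ => ((continuous_const.mul hpc).pow i).div_const _
  have hrem : ∀ x, |Real.exp (t * p x) - T x| ≤ E := fun x => exp_rem (hq x) (by linarith) k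
  set W : ℝ := t * nm H c with hW
  have hW0 : 0 ≤ W := mul_nonneg ht0 (nm_nonneg _ _)
  have hWA : W ≤ A * t := by rw [hW, mul_comm]; exact mul_le_mul_of_nonneg_right hnmA ht0
  have hTP : TP D (Real.exp W) (fun x => (T x : ℂ)) := by
    have h1 : TP H (nm H c) (fun t => (p t : ℂ)) := ⟨c, hp, le_rfl⟩
    have h2 := h1.smul (t : ℂ)
    rw [Complex.norm_real, Real.norm_eq_abs, abs_of_nonneg ht0] at h2
    have h3 := (h2.exp hW0 k).mono_deg (H' := D) ((Nat.mul_le_mul_left k (Nat.le_succ H)).trans (Nat.le_succ _))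
    refine h3.congr fun x => ?_
    rw [hT]
    push_cast
    rfl
  have hTPE : ∀ ε : ℝ, |ε| ≤ E → TP D (Real.exp W + E) (fun x => ((T x + ε : ℝ) : ℂ)) := by
    intro ε hε
    have h4 := hTP.add (TP.const D (ε : ℂ))
    rw [Complex.norm_real, Real.norm_eq_abs] at h4
    refine (h4.mono_nm (by linarith)).congr fun x => ?_
    push_cast
    rfl
  -- the means
  set X : ℝ := ∫ x in (0 : ℝ)..1, Real.exp (t * p x) with hX
  have hX1 : 1 ≤ X := one_le_mgf hpc hpm t
  have hec : Continuous fun x => Real.exp (t * p x) := Real.continuous_exp.comp (continuous_const.mul hpc)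
  have hmean : ∀ ε : ℝ, |ε| ≤ E → |(∫ x in (0 : ℝ)..1, (T x + ε)) - X| ≤ 2 * E := by
    intro ε hε
    have h1 : (∫ x in (0 : ℝ)..1, (T x + ε)) - X = ∫ x in (0 : ℝ)..1, ((T x + ε) - Real.exp (t * p x)) := by
      have h0 : IntervalIntegrable (fun x => T x + ε) volume 0 1 := (hTc.add continuous_const).intervalIntegrable _ _
      rw [intervalIntegral.integral_sub h0 (hec.intervalIntegrable _ _)]
    rw [h1]
    have h2 := intervalIntegral.norm_integral_le_of_norm_le_const (a := (0 : ℝ)) (b := 1) (C := 2 * E)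
      (f := fun x => (T x + ε) - Real.exp (t * p x)) fun x _ => by
        rw [Real.norm_eq_abs, abs_le]
        have h3 := abs_le.1 (hrem x)
        have h4 := abs_le.1 hε
        constructor <;> linarith [h3.1, h3.2, h4.1, h4.2]
    simpa using h2
  have hlam : lam p t = Real.log X := rfl
  have hW1 : Real.exp W + E ≤ (1 - 2 * E) * (1 + C₁ * t) :=
    nm_arith hAt0 htA (mul_le_mul_of_nonneg_right hAk ht0) hWA hE0 hE1 hE2 hC₁
  have hs0 : 0 ≤ C₁ * t := by positivity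
  have hexp : ∀ x : ℝ, Real.exp (t * ∑ n ∈ Finset.range L, p (κ * x * θ ^ n + σ n)) =
      ∏ n ∈ Finset.range L, Real.exp (t * p (κ * x * θ ^ n + σ n)) := by
    intro x
    rw [Finset.mul_sum, Real.exp_sum]
  have hcu : ∀ n : ℕ, Continuous fun x : ℝ => κ * x * θ ^ n + σ n := fun n =>
    ((continuous_const.mul continuous_id).mul continuous_const).add continuous_const
  have hcp : ∀ {f : ℝ → ℝ}, Continuous f → Continuous fun x : ℝ => ∏ n ∈ Finset.range L, f (κ * x * θ ^ n + σ n) :=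
    fun hf => continuous_finsetProd _ fun n _ => hf.comp (hcu n)
  simp_rw [hexp]
  have hab' : a ≤ b := by linarith
  constructor
  · -- lower bound
    have habs : |(-E)| ≤ E := by rw [abs_neg, abs_of_nonneg hE0]
    have hm := abs_le.1 (hmean (-E) habs)
    set M : ℝ := ∫ x in (0 : ℝ)..1, (T x + -E) with hM
    have hM1 : 1 - 2 * E ≤ M := by linarith [hm.1]
    have hM0 : 0 < M := by linarith
    have hg0 : ∀ x, 0 ≤ T x + -E := fun x => by
      have h1 := (abs_le.1 (hrem x)).2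
      have h2 := Real.add_one_le_exp (t * p x)
      have h3 := (abs_le.1 (hq x)).1
      linarith
    have hle : ∀ x, T x + -E ≤ Real.exp (t * p x) := fun x => by
      have h1 := (abs_le.1 (hrem x)).1
      linarith
    have hnc := norm_cluster hcl (hTPE (-E) habs) hg0 hM hM0
      (hW1.trans (mul_le_mul_of_nonneg_right hM1 (by linarith))) hts hLs σ hκ hab
    have h1 : (∫ x in a..b, ∏ n ∈ Finset.range L, (T (κ * x * θ ^ n + σ n) + -E)) ≤
        ∫ x in a..b, ∏ n ∈ Finset.range L, Real.exp (t * p (κ * x * θ ^ n + σ n)) := by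
      refine intervalIntegral.integral_mono_on hab'
        ((hcp (hTc.add continuous_const)).intervalIntegrable _ _) ((hcp hec).intervalIntegrable _ _) fun x _ => ?_
      exact Finset.prod_le_prod (fun n _ => hg0 _) fun n _ => hle _
    refine le_trans ?_ h1
    have h2 := (abs_le.1 hnc).1
    have h3 : M ^ L * (b - a) * (1 - C * (C₁ * t)) ≤ ∫ x in a..b, ∏ n ∈ Finset.range L, (T (κ * x * θ ^ n + σ n) + -E) := by
      have : M ^ L * (b - a) * (1 - C * (C₁ * t)) = M ^ L * (b - a) - M ^ L * (C * (C₁ * t) * (b - a)) := by ring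
      rw [this]
      linarith
    refine le_trans ?_ h3
    have h4 : Real.exp (L * lam p t - 4 * (2 * A ^ (k + 1) * t)) ≤ M ^ L := by
      rw [hlam]
      refine pow_lower hX1 hM0 ?_ hE0 hE2 hLE
      have h6 : 0 ≤ (X - 1) * E := mul_nonneg (by linarith) hE0
      linarith [hm.1]
    have h5 : Real.exp (-(2 * C * C₁ * t)) ≤ 1 - C * (C₁ * t) := exp_low (by positivity) htC (by ring)
    have h6 : Real.exp (L * lam p t - (8 * A ^ (k + 1) + 2 * C * C₁) * t) =
        Real.exp (L * lam p t - 4 * (2 * A ^ (k + 1) * t)) * Real.exp (-(2 * C * C₁ * t)) := by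
      rw [← Real.exp_add]
      congr 1
      ring
    rw [h6]
    have h7 : 0 ≤ 1 - C * (C₁ * t) := by linarith
    calc (b - a) * (Real.exp (L * lam p t - 4 * (2 * A ^ (k + 1) * t)) * Real.exp (-(2 * C * C₁ * t)))
        ≤ (b - a) * (M ^ L * (1 - C * (C₁ * t))) := by gcongr
      _ = M ^ L * (b - a) * (1 - C * (C₁ * t)) := by ring
  · -- upper bound
    have habs : |E| ≤ E := by rw [abs_of_nonneg hE0]
    have hm := abs_le.1 (hmean E habs)
    set M : ℝ := ∫ x in (0 : ℝ)..1, (T x + E) with hM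
    have hM1 : 1 - 2 * E ≤ M := by linarith [hm.1]
    have hM0 : 0 < M := by linarith
    have hge : ∀ x, Real.exp (t * p x) ≤ T x + E := fun x => by
      have h1 := (abs_le.1 (hrem x)).2
      linarith
    have hg0 : ∀ x, 0 ≤ T x + E := fun x => (Real.exp_pos _).le.trans (hge x)
    have hnc := norm_cluster hcl (hTPE E habs) hg0 hM hM0
      (hW1.trans (mul_le_mul_of_nonneg_right hM1 (by linarith))) hts hLs σ hκ hab
    have h1 : (∫ x in a..b, ∏ n ∈ Finset.range L, Real.exp (t * p (κ * x * θ ^ n + σ n))) ≤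
        ∫ x in a..b, ∏ n ∈ Finset.range L, (T (κ * x * θ ^ n + σ n) + E) := by
      refine intervalIntegral.integral_mono_on hab' ((hcp hec).intervalIntegrable _ _)
        ((hcp (hTc.add continuous_const)).intervalIntegrable _ _) fun x _ => ?_
      exact Finset.prod_le_prod (fun n _ => (Real.exp_pos _).le) fun n _ => hge _
    refine h1.trans ?_
    have h2 := (abs_le.1 hnc).2
    have h3 : (∫ x in a..b, ∏ n ∈ Finset.range L, (T (κ * x * θ ^ n + σ n) + E)) ≤ M ^ L * (b - a) * (1 + C * (C₁ * t)) := by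
      have : M ^ L * (b - a) * (1 + C * (C₁ * t)) = M ^ L * (b - a) + M ^ L * (C * (C₁ * t) * (b - a)) := by ring
      rw [this]
      linarith
    refine h3.trans ?_
    have h4 : M ^ L ≤ Real.exp (L * lam p t + 4 * (2 * A ^ (k + 1) * t)) := by
      rw [hlam]
      refine pow_upper hX1 hM0 ?_ hE0 hLE
      have h6 : 0 ≤ (X - 1) * E := mul_nonneg (by linarith) hE0
      linarith [hm.2]
    have h5 : 1 + C * (C₁ * t) ≤ Real.exp (2 * C * C₁ * t) := exp_up (by positivity) (by ring)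
    have h6 : Real.exp (L * lam p t + (8 * A ^ (k + 1) + 2 * C * C₁) * t) =
        Real.exp (L * lam p t + 4 * (2 * A ^ (k + 1) * t)) * Real.exp (2 * C * C₁ * t) := by
      rw [← Real.exp_add]
      congr 1
      ring
    rw [h6]
    calc M ^ L * (b - a) * (1 + C * (C₁ * t)) = (b - a) * (M ^ L * (1 + C * (C₁ * t))) := by ring
      _ ≤ (b - a) * (Real.exp (L * lam p t + 4 * (2 * A ^ (k + 1) * t)) * Real.exp (2 * C * C₁ * t)) := by gcongr

end Pool.Agent.Helper80.KX
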