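import Pool.Agent.Helper78.KX.Defs2
import Pool.Agent.Helper80.KX.X2

/-!
# Multiples of a geometric progression: exponential moments of blocks, uniform version
-/

set_option autoImplicit false

namespace Pool.Agent.Helper80.KX

open MeasureTheory Set Filter Topology Pool.Agent.Helper18.GP Pool.Agent.Helper82.FK Pool.Agent.Helper78.KX

/-- from the cluster estimate to the exponential moments -/
theorem core {θ : ℝ} {D H n L : ℕ} {Y s W r E B t κ a b : ℝ} {σ : ℕ → ℝ} {c : ℤ → ℂ} {p : ℝ → ℝ}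
    (hcl : ∀ (c : ℤ → ℂ) (g : ℝ → ℝ), (∀ t, gp D c t = g t) → (∀ t, 0 ≤ g t) → c 0 = 1 → nm D c ≤ 1 + s →
      |(∫ x in a..b, ∏ n ∈ Finset.range L, g (κ * x * θ ^ n + σ n)) - (b - a)| ≤ Y * (b - a))
    (hp : ∀ t, gp H c t = p t) (hc0 : c 0 = 0) (hab : a ≤ b) (ht0 : 0 ≤ t) (hW : t * nm H c ≤ W) (hW0 : 0 ≤ W)
    (hr : ∀ x, |t * p x| ≤ r) (hr2 : r ≤ 1 / 2) (hE : E = 2 * r ^ (n + 1)) (hE2 : E ≤ 1 / 8) (hD : n * H ≤ D)
    (hW1 : Real.exp W + E ≤ (1 - 2 * E) * (1 + s)) (hs : 0 ≤ s) (hB : L * E ≤ B) (hY0 : 0 ≤ Y) (hY : Y ≤ 1 / 2) :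
    (b - a) * Real.exp (L * lam p t - (4 * B + 2 * Y)) ≤
        (∫ x in a..b, Real.exp (t * ∑ n ∈ Finset.range L, p (κ * x * θ ^ n + σ n))) ∧
      (∫ x in a..b, Real.exp (t * ∑ n ∈ Finset.range L, p (κ * x * θ ^ n + σ n))) ≤
        (b - a) * Real.exp (L * lam p t + (4 * B + 2 * Y)) := by
  have hr0 : 0 ≤ r := (abs_nonneg _).trans (hr 0)
  have hE0 : 0 ≤ E := by rw [hE]; positivity
  have hba : 0 ≤ b - a := by linarith
  have hpc : Continuous p := by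
    have h4 : p = fun t => (gp H c t).re := by
      funext t
      rw [hp t, Complex.ofReal_re]
    rw [h4]
    exact Complex.continuous_re.comp (gp_cont H c)
  have hpm : ∫ x in (0 : ℝ)..1, p x = 0 := by
    have := coeff_zero hp
    rw [hc0] at this
    exact_mod_cast this.symm
  set T : ℝ → ℝ := fun x => ∑ i ∈ Finset.range (n + 1), (t * p x) ^ i / (i.factorial : ℝ) with hT
  have hTc : Continuous T := by
    rw [hT]
    exact continuous_finsetSum _ fun i _ => ((continuous_const.mul hpc).pow i).div_const _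
  have hrem : ∀ x, |Real.exp (t * p x) - T x| ≤ E := fun x => by
    rw [hE]
    exact exp_rem (hr x) (by linarith) n
  have hTP : TP D (Real.exp W) (fun x => (T x : ℂ)) := by
    have h1 : TP H (nm H c) (fun t => (p t : ℂ)) := ⟨c, hp, le_rfl⟩
    have h2 := h1.smul (t : ℂ)
    rw [Complex.norm_real, Real.norm_eq_abs, abs_of_nonneg ht0] at h2
    have h3 := ((h2.mono_nm hW).exp hW0 n).mono_deg hD
    refine h3.congr fun x => ?_
    rw [hT]
    push_cast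
    rfl
  have hTPE : ∀ ε : ℝ, |ε| ≤ E → TP D (Real.exp W + E) (fun x => ((T x + ε : ℝ) : ℂ)) := by
    intro ε hε
    have h4 := hTP.add (TP.const D (ε : ℂ))
    rw [Complex.norm_real, Real.norm_eq_abs] at h4
    refine (h4.mono_nm (by linarith)).congr fun x => ?_
    push_cast
    rfl
  -- the means
  set X : ℝ := ∫ x in (0 : ℝ)..1, Real.exp (t * p x) with hX
  have hX1 : 1 ≤ X := one_le_mgf hpc hpm t
  have hec : Continuous fun x => Real.exp (t * p x) := Real.continuous_exp.comp (continuous_const.mul hpc)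
  have hmean : ∀ ε : ℝ, |ε| ≤ E → |(∫ x in (0 : ℝ)..1, (T x + ε)) - X| ≤ 2 * E := by
    intro ε hε
    have h1 : (∫ x in (0 : ℝ)..1, (T x + ε)) - X = ∫ x in (0 : ℝ)..1, ((T x + ε) - Real.exp (t * p x)) := by
      have h0 : IntervalIntegrable (fun x => T x + ε) volume 0 1 := (hTc.add continuous_const).intervalIntegrable _ _
      rw [intervalIntegral.integral_sub h0 (hec.intervalIntegrable _ _)]
    rw [h1]
    have h2 := intervalIntegral.norm_integral_le_of_norm_le_const (a := (0 : ℝ)) (b := 1) (C := 2 * E)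
      (f := fun x => (T x + ε) - Real.exp (t * p x)) fun x _ => by
        rw [Real.norm_eq_abs, abs_le]
        have h3 := abs_le.1 (hrem x)
        have h4 := abs_le.1 hε
        constructor <;> linarith [h3.1, h3.2, h4.1, h4.2]
    simpa using h2
  have hlam : lam p t = Real.log X := rfl
  have hexp : ∀ x : ℝ, Real.exp (t * ∑ n ∈ Finset.range L, p (κ * x * θ ^ n + σ n)) =
      ∏ n ∈ Finset.range L, Real.exp (t * p (κ * x * θ ^ n + σ n)) := by
    intro x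
    rw [Finset.mul_sum, Real.exp_sum]
  have hcu : ∀ n : ℕ, Continuous fun x : ℝ => κ * x * θ ^ n + σ n := fun n =>
    ((continuous_const.mul continuous_id).mul continuous_const).add continuous_const
  have hcp : ∀ {f : ℝ → ℝ}, Continuous f → Continuous fun x : ℝ => ∏ n ∈ Finset.range L, f (κ * x * θ ^ n + σ n) :=
    fun hf => continuous_finsetProd _ fun n _ => hf.comp (hcu n)
  simp_rw [hexp]
  -- the normalised polynomial
  have hnorm : ∀ ε : ℝ, |ε| ≤ E → (∀ x, 0 ≤ T x + ε) → ∀ M : ℝ, M = ∫ x in (0 : ℝ)..1, (T x + ε) → 1 - 2 * E ≤ M →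
      |(∫ x in a..b, ∏ n ∈ Finset.range L, (T (κ * x * θ ^ n + σ n) + ε)) - M ^ L * (b - a)| ≤
        M ^ L * (Y * (b - a)) := by
    intro ε hε hg0 M hM hM1
    have hM0 : 0 < M := by linarith
    obtain ⟨d, hd1, hd2⟩ := hTPE ε hε
    have hd0 : d 0 = M := by rw [hM]; exact coeff_zero hd1
    have hMc : (M : ℂ) ≠ 0 := by exact_mod_cast hM0.ne'
    have h1 : ∀ t, gp D (fun k => (M : ℂ)⁻¹ * d k) t = ((M⁻¹ * (T t + ε) : ℝ) : ℂ) := by
      intro t
      have h2 : gp D (fun k => (M : ℂ)⁻¹ * d k) t = (M : ℂ)⁻¹ * gp D d t := by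
        unfold gp
        rw [Finset.mul_sum]
        exact Finset.sum_congr rfl fun k _ => by ring
      rw [h2, hd1 t, Complex.ofReal_mul, Complex.ofReal_inv]
    have h2 : nm D (fun k => (M : ℂ)⁻¹ * d k) ≤ 1 + s := by
      have h3 : nm D (fun k => (M : ℂ)⁻¹ * d k) = M⁻¹ * nm D d := by
        unfold nm
        rw [Finset.mul_sum]
        refine Finset.sum_congr rfl fun k _ => ?_
        rw [norm_mul, norm_inv, Complex.norm_real, Real.norm_eq_abs, abs_of_pos hM0]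
      rw [h3, inv_mul_le_iff₀ hM0]
      exact hd2.trans (hW1.trans (mul_le_mul_of_nonneg_right hM1 (by linarith)))
    have h3 := hcl (fun k => (M : ℂ)⁻¹ * d k) (fun t => M⁻¹ * (T t + ε)) h1
      (fun t => mul_nonneg (inv_nonneg.2 hM0.le) (hg0 t))
      (by show (M : ℂ)⁻¹ * d 0 = 1; rw [hd0, inv_mul_cancel₀ hMc]) h2
    have h4 : ∀ x : ℝ, ∏ n ∈ Finset.range L, (T (κ * x * θ ^ n + σ n) + ε) =
        M ^ L * ∏ n ∈ Finset.range L, (M⁻¹ * (T (κ * x * θ ^ n + σ n) + ε)) := by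
      intro x
      rw [Finset.prod_mul_distrib, Finset.prod_const, Finset.card_range, ← mul_assoc, ← mul_pow, mul_inv_cancel₀ hM0.ne',
        one_pow, one_mul]
    simp_rw [h4]
    rw [intervalIntegral.integral_const_mul, ← mul_sub, abs_mul, abs_of_pos (pow_pos hM0 L)]
    exact mul_le_mul_of_nonneg_left h3 (pow_pos hM0 L).le
  constructor
  · -- lower bound
    have habs : |(-E)| ≤ E := by rw [abs_neg, abs_of_nonneg hE0]
    have hm := abs_le.1 (hmean (-E) habs)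
    set M : ℝ := ∫ x in (0 : ℝ)..1, (T x + -E) with hM
    have hM1 : 1 - 2 * E ≤ M := by linarith [hm.1]
    have hM0 : 0 < M := by linarith
    have hg0 : ∀ x, 0 ≤ T x + -E := fun x => by
      have h1 := (abs_le.1 (hrem x)).2
      have h2 := Real.add_one_le_exp (t * p x)
      have h3 := (abs_le.1 (hr x)).1
      linarith
    have hle : ∀ x, T x + -E ≤ Real.exp (t * p x) := fun x => by
      have h1 := (abs_le.1 (hrem x)).1
      linarith
    have hnc := hnorm (-E) habs hg0 M hM hM1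
    have h1 : (∫ x in a..b, ∏ n ∈ Finset.range L, (T (κ * x * θ ^ n + σ n) + -E)) ≤
        ∫ x in a..b, ∏ n ∈ Finset.range L, Real.exp (t * p (κ * x * θ ^ n + σ n)) := by
      refine intervalIntegral.integral_mono_on hab
        ((hcp (hTc.add continuous_const)).intervalIntegrable _ _) ((hcp hec).intervalIntegrable _ _) fun x _ => ?_
      exact Finset.prod_le_prod (fun n _ => hg0 _) fun n _ => hle _
    refine le_trans ?_ h1
    have h2 := (abs_le.1 hnc).1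
    have h3 : M ^ L * (b - a) * (1 - Y) ≤ ∫ x in a..b, ∏ n ∈ Finset.range L, (T (κ * x * θ ^ n + σ n) + -E) := by
      have : M ^ L * (b - a) * (1 - Y) = M ^ L * (b - a) - M ^ L * (Y * (b - a)) := by ring
      rw [this]
      linarith
    refine le_trans ?_ h3
    have h4 : Real.exp (L * lam p t - 4 * B) ≤ M ^ L := by
      rw [hlam]
      refine pow_lower hX1 hM0 ?_ hE0 hE2 hB
      have h6 : 0 ≤ (X - 1) * E := mul_nonneg (by linarith) hE0
      linarith [hm.1]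
    have h5 : Real.exp (-(2 * Y)) ≤ 1 - Y := exp_low hY0 hY rfl
    have h6 : Real.exp (L * lam p t - (4 * B + 2 * Y)) = Real.exp (L * lam p t - 4 * B) * Real.exp (-(2 * Y)) := by
      rw [← Real.exp_add]
      congr 1
      ring
    rw [h6]
    have h7 : 0 ≤ 1 - Y := by linarith
    calc (b - a) * (Real.exp (L * lam p t - 4 * B) * Real.exp (-(2 * Y))) ≤ (b - a) * (M ^ L * (1 - Y)) := by gcongr
      _ = M ^ L * (b - a) * (1 - Y) := by ring
  · -- upper bound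
    have habs : |E| ≤ E := by rw [abs_of_nonneg hE0]
    have hm := abs_le.1 (hmean E habs)
    set M : ℝ := ∫ x in (0 : ℝ)..1, (T x + E) with hM
    have hM1 : 1 - 2 * E ≤ M := by linarith [hm.1]
    have hM0 : 0 < M := by linarith
    have hge : ∀ x, Real.exp (t * p x) ≤ T x + E := fun x => by
      have h1 := (abs_le.1 (hrem x)).2
      linarith
    have hg0 : ∀ x, 0 ≤ T x + E := fun x => (Real.exp_pos _).le.trans (hge x)
    have hnc := hnorm E habs hg0 M hM hM1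
    have h1 : (∫ x in a..b, ∏ n ∈ Finset.range L, Real.exp (t * p (κ * x * θ ^ n + σ n))) ≤
        ∫ x in a..b, ∏ n ∈ Finset.range L, (T (κ * x * θ ^ n + σ n) + E) := by
      refine intervalIntegral.integral_mono_on hab ((hcp hec).intervalIntegrable _ _)
        ((hcp (hTc.add continuous_const)).intervalIntegrable _ _) fun x _ => ?_
      exact Finset.prod_le_prod (fun n _ => (Real.exp_pos _).le) fun n _ => hge _
    refine h1.trans ?_
    have h2 := (abs_le.1 hnc).2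
    have h3 : (∫ x in a..b, ∏ n ∈ Finset.range L, (T (κ * x * θ ^ n + σ n) + E)) ≤ M ^ L * (b - a) * (1 + Y) := by
      have : M ^ L * (b - a) * (1 + Y) = M ^ L * (b - a) + M ^ L * (Y * (b - a)) := by ring
      rw [this]
      linarith
    refine h3.trans ?_
    have h4 : M ^ L ≤ Real.exp (L * lam p t + 4 * B) := by
      rw [hlam]
      refine pow_upper hX1 hM0 ?_ hE0 hB
      have h6 : 0 ≤ (X - 1) * E := mul_nonneg (by linarith) hE0
      linarith [hm.2]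
    have h5 : 1 + Y ≤ Real.exp (2 * Y) := exp_up hY0 rfl
    have h6 : Real.exp (L * lam p t + (4 * B + 2 * Y)) = Real.exp (L * lam p t + 4 * B) * Real.exp (2 * Y) := by
      rw [← Real.exp_add]
      congr 1
      ring
    rw [h6]
    calc M ^ L * (b - a) * (1 + Y) = (b - a) * (M ^ L * (1 + Y)) := by ring
      _ ≤ (b - a) * (Real.exp (L * lam p t + 4 * B) * Real.exp (2 * Y)) := by gcongr

theorem y_bound {δ C₁ d : ℝ} (h0 : 0 < δ) (h1 : δ ≤ 1) (hC : 0 ≤ C₁) (hD : (d + 1) ^ 2 * δ ≤ 1) :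
    ((d + 1) * (C₁ * (δ * (1 + Real.log (1 / δ))))) ^ 4 ≤ 34 ^ 2 * C₁ ^ 4 * δ := by
  have hlog : (1 + Real.log (1 / δ)) ^ 2 * δ ≤ 34 * √δ := log_inv_le h0 h1
  have hsq : √δ ^ 2 = δ := Real.sq_sqrt h0.le
  have hsq0 : 0 ≤ √δ := Real.sqrt_nonneg _
  set ℓ : ℝ := 1 + Real.log (1 / δ) with hℓ
  set y : ℝ := (d + 1) * (C₁ * (δ * ℓ)) with hy
  have h2 : y ^ 2 ≤ 34 * C₁ ^ 2 * √δ := by
    have h3 : y ^ 2 = ((d + 1) ^ 2 * δ) * (C₁ ^ 2 * (ℓ ^ 2 * δ)) := by rw [hy]; ring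
    rw [h3]
    have h4 : C₁ ^ 2 * (ℓ ^ 2 * δ) ≤ C₁ ^ 2 * (34 * √δ) := mul_le_mul_of_nonneg_left hlog (by positivity)
    have h5 : 0 ≤ C₁ ^ 2 * (ℓ ^ 2 * δ) := by positivity
    calc ((d + 1) ^ 2 * δ) * (C₁ ^ 2 * (ℓ ^ 2 * δ)) ≤ 1 * (C₁ ^ 2 * (ℓ ^ 2 * δ)) := mul_le_mul_of_nonneg_right hD h5
      _ ≤ 1 * (C₁ ^ 2 * (34 * √δ)) := by linarith
      _ = 34 * C₁ ^ 2 * √δ := by ring
  calc y ^ 4 = (y ^ 2) ^ 2 := by ring
    _ ≤ (34 * C₁ ^ 2 * √δ) ^ 2 := pow_le_pow_left₀ (by positivity) h2 2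
    _ = 34 ^ 2 * C₁ ^ 4 * √δ ^ 2 := by ring
    _ = 34 ^ 2 * C₁ ^ 4 * δ := by rw [hsq]

theorem w_small {δ M : ℝ} (h0 : 0 < δ) (h1 : δ ≤ 1) (hM : δ * (34 * 256 * M ^ 2) ≤ 1) :
    M * (δ * (1 + Real.log (1 / δ))) ≤ 1 / 16 := by
  have hlog : (1 + Real.log (1 / δ)) ^ 2 * δ ≤ 34 * √δ := log_inv_le h0 h1
  have hsq1 : √δ ≤ 1 := Real.sqrt_le_one.2 h1
  set ℓ : ℝ := 1 + Real.log (1 / δ) with hℓ
  have h2 : (M * (δ * ℓ)) ^ 2 ≤ (1 / 16) ^ 2 := by
    have h3 : (M * (δ * ℓ)) ^ 2 = M ^ 2 * δ * (ℓ ^ 2 * δ) := by ring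
    rw [h3]
    have h4 : ℓ ^ 2 * δ ≤ 34 := by linarith
    calc M ^ 2 * δ * (ℓ ^ 2 * δ) ≤ M ^ 2 * δ * 34 := mul_le_mul_of_nonneg_left h4 (by positivity)
      _ ≤ (1 / 16) ^ 2 := by linarith
  exact (abs_le_of_sq_le_sq' h2 (by norm_num)).2

theorem block_few_of {θ : ℝ} (A k : ℕ)
    (cluster' : ∃ C s₁ : ℝ, 0 < C ∧ 0 < s₁ ∧ ∀ (H D : ℕ), Few θ H (4 * (k + 1)) D →
      ∀ (c : ℤ → ℂ) (g : ℝ → ℝ) (s : ℝ), (∀ t, gp H c t = g t) → (∀ t, 0 ≤ g t) → c 0 = 1 → nm H c ≤ 1 + s →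
      ((D : ℝ) + 1) * s ≤ s₁ → ∀ N : ℕ, N * (((D : ℝ) + 1) * s) ^ (4 * (k + 1)) ≤ 1 →
      ∀ (κ : ℝ) (σ : ℕ → ℝ) (p q : ℝ), 0 < κ →
      1 ≤ κ * (q - p) → |(∫ x in p..q, ∏ n ∈ Finset.range N, g (κ * x * θ ^ n + σ n)) - (q - p)| ≤
        C * (((D : ℝ) + 1) * s) * (q - p)) :
    ∃ (k' : ℕ) (δ₀ : ℝ), 0 < δ₀ ∧ δ₀ ≤ 1 ∧ ∀ δ : ℝ, 0 < δ → δ ≤ δ₀ →
    ∀ (H : ℕ) (c : ℤ → ℂ) (p : ℝ → ℝ), TC A δ H c p → ∀ D : ℕ, ((D : ℝ) + 1) ^ 2 * δ ≤ 1 → Few θ (k' * (H + 1)) k' D →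
    ∀ t, 0 ≤ t → t ≤ 2 * A * δ → ∀ L : ℕ, L * δ ^ k ≤ 1 → ∀ (κ : ℝ) (σ : ℕ → ℝ) (a b : ℝ), 0 < κ → 1 ≤ κ * (b - a) →
      (b - a) * Real.exp (L * lam p t - 1) ≤
        (∫ x in a..b, Real.exp (t * ∑ n ∈ Finset.range L, p (κ * x * θ ^ n + σ n))) ∧
      (∫ x in a..b, Real.exp (t * ∑ n ∈ Finset.range L, p (κ * x * θ ^ n + σ n))) ≤
        (b - a) * Real.exp (L * lam p t + 1) := by
  obtain ⟨C, s₁, hC, hs₁, hcl⟩ := cluster'
  set M : ℝ := 2 * (A : ℝ) ^ 2 + 1 with hM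
  have hM1 : 1 ≤ M := by rw [hM]; nlinarith [sq_nonneg (A : ℝ)]
  have hM0 : 0 < M := by linarith
  set K : ℝ := M ^ (k + 1) with hK
  have hMK : M ≤ K := by
    calc M = M ^ 1 := (pow_one M).symm
      _ ≤ M ^ (k + 1) := pow_le_pow_right₀ hM1 (by omega)
  have hK1 : 1 ≤ K := hM1.trans hMK
  have hK0 : 0 < K := by linarith
  set C₁ : ℝ := 16 * K with hC₁
  have hC₁0 : 0 < C₁ := by positivity
  set Q : ℝ := 34 ^ 2 * C₁ ^ 4 with hQ
  have hQ0 : 0 < Q := by positivity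
  set u₀ : ℝ := min s₁ (1 / (4 * C)) with hu₀
  have hu₀0 : 0 < u₀ := by positivity
  set δ₀ : ℝ := min 1 (min (1 / (34 * 256 * M ^ 2)) (min (1 / (16 * K)) (min (u₀ ^ 4 / Q) (1 / Q ^ (k + 1))))) with hδ₀
  have hδ₀0 : 0 < δ₀ := by positivity
  refine ⟨4 * (k + 1), δ₀, hδ₀0, min_le_left _ _, ?_⟩
  intro δ hδ0 hδ H c p hp D hD hF t ht0 ht L hL κ σ a b hκ hab
  have hδ1 : δ ≤ 1 := hδ.trans (min_le_left _ _)
  have hd1 : δ * (34 * 256 * M ^ 2) ≤ 1 := by
    have h1 := hδ.trans ((min_le_right _ _).trans (min_le_left _ _))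
    rwa [le_div_iff₀ (by positivity)] at h1
  have hd2 : δ * (16 * K) ≤ 1 := by
    have h1 := hδ.trans ((min_le_right _ _).trans ((min_le_right _ _).trans (min_le_left _ _)))
    rwa [le_div_iff₀ (by positivity)] at h1
  have hd3 : δ * Q ≤ u₀ ^ 4 := by
    have h1 := hδ.trans ((min_le_right _ _).trans ((min_le_right _ _).trans ((min_le_right _ _).trans (min_le_left _ _))))
    rwa [le_div_iff₀ (by positivity)] at h1
  have hd4 : δ * Q ^ (k + 1) ≤ 1 := by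
    have h1 := hδ.trans ((min_le_right _ _).trans ((min_le_right _ _).trans ((min_le_right _ _).trans (min_le_right _ _))))
    rwa [le_div_iff₀ (by positivity)] at h1
  set ℓ : ℝ := Real.log (1 / δ) with hℓ
  have hℓ0 : 0 ≤ ℓ := Real.log_nonneg (by rw [le_div_iff₀ hδ0]; linarith)
  set w : ℝ := δ * (1 + ℓ) with hw
  have hw0 : 0 ≤ w := by positivity
  have hδw : δ ≤ w := by rw [hw]; nlinarith
  have hMw : M * w ≤ 1 / 16 := w_small hδ0 hδ1 hd1
  set s : ℝ := C₁ * w with hs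
  have hs0 : 0 ≤ s := by positivity
  set y : ℝ := ((D : ℝ) + 1) * s with hy
  have hy0 : 0 ≤ y := by positivity
  have hy4 : y ^ 4 ≤ Q * δ := y_bound hδ0 hδ1 hC₁0.le hD
  have hyu : y ≤ u₀ := by
    have h1 : y ^ 4 ≤ u₀ ^ 4 := by linarith
    exact le_of_pow_le_pow_left₀ (by norm_num) hu₀0.le h1
  have hys : y ≤ s₁ := hyu.trans (min_le_left _ _)
  have hyC : C * y ≤ 1 / 4 := by
    have h1 := hyu.trans (min_le_right _ _)
    rw [le_div_iff₀ (by positivity)] at h1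
    linarith
  have hLy : L * y ^ (4 * (k + 1)) ≤ 1 := by
    have h1 : y ^ (4 * (k + 1)) ≤ Q ^ (k + 1) * δ ^ (k + 1) := by
      rw [pow_mul, ← mul_pow]
      exact pow_le_pow_left₀ (by positivity) hy4 _
    calc L * y ^ (4 * (k + 1)) ≤ L * (Q ^ (k + 1) * δ ^ (k + 1)) := by gcongr
      _ = (L * δ ^ k) * (δ * Q ^ (k + 1)) := by ring
      _ ≤ 1 := mul_le_one₀ hL (by positivity) hd4
  have hba : 0 < b - a := by
    by_contra hcon
    push Not at hcon
    have := mul_nonneg hκ.le (neg_nonneg.2 hcon)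
    linarith
  set r : ℝ := M * δ with hr
  have hr0 : 0 ≤ r := by positivity
  have hrw : r ≤ M * w := mul_le_mul_of_nonneg_left hδw hM0.le
  set E : ℝ := 2 * r ^ (k + 1) with hE
  have hE0 : 0 ≤ E := by positivity
  have hEδ : E = 2 * K * δ ^ (k + 1) := by rw [hE, hr, mul_pow, hK]; ring
  have hE1 : E ≤ 2 * K * w := by
    rw [hEδ]
    have h4 : δ ^ (k + 1) ≤ δ := pow_le_of_le_one hδ0.le hδ1 (by omega)
    have h5 : δ ^ (k + 1) ≤ w := h4.trans hδw
    gcongr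
  have hE2 : E ≤ 1 / 8 := by
    rw [hEδ]
    have h4 : δ ^ (k + 1) ≤ δ := pow_le_of_le_one hδ0.le hδ1 (by omega)
    have h5 : 2 * K * δ ^ (k + 1) ≤ 2 * K * δ := by gcongr
    linarith
  have hLE : L * E ≤ 2 * K * δ := by
    have h3 : L * E = 2 * K * δ * (L * δ ^ k) := by rw [hEδ]; ring
    rw [h3]
    exact mul_le_of_le_one_right (by positivity) hL
  have hAM : 2 * (A : ℝ) * A ≤ M := by rw [hM]; nlinarith
  have hA0 : (0 : ℝ) ≤ A := Nat.cast_nonneg A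
  have hrb : ∀ x, |t * p x| ≤ r := fun x => by
    rw [abs_mul, abs_of_nonneg ht0]
    calc t * |p x| ≤ (2 * A * δ) * A := mul_le_mul ht (hp.bd x) (abs_nonneg _) (by positivity)
      _ = (2 * A * A) * δ := by ring
      _ ≤ M * δ := by gcongr
  have hWb : t * nm H c ≤ M * w := by
    calc t * nm H c ≤ (2 * A * δ) * (A * (1 + ℓ)) := mul_le_mul ht hp.nm_le (nm_nonneg _ _) (by positivity)
      _ = (2 * A * A) * w := by rw [hw]; ring
      _ ≤ M * w := by gcongr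
  have hW1 : Real.exp (M * w) + E ≤ (1 - 2 * E) * (1 + C₁ * w) :=
    nm_arith (by positivity) hMw (mul_le_mul_of_nonneg_right hMK hw0) le_rfl hE0 hE1 hE2 hC₁
  have hmain := core (θ := θ) (D := 4 * (k + 1) * (H + 1)) (H := H) (n := k) (L := L) (Y := C * y) (s := s) (W := M * w)
    (r := r) (E := E) (B := 2 * K * δ) (t := t) (κ := κ) (a := a) (b := b) (σ := σ) (c := c) (p := p)
    (fun c' g h1 h2 h3 h4 => hcl _ D hF c' g s h1 h2 h3 h4 hys L hLy κ σ a b hκ hab) hp.eq hp.c0 (by linarith) ht0 hWb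
    (by positivity) hrb (by linarith) hE hE2 (by nlinarith) hW1 hs0 hLE (by positivity) (by linarith)
  have hfin : 4 * (2 * K * δ) + 2 * (C * y) ≤ 1 := by linarith
  constructor
  · refine le_trans (mul_le_mul_of_nonneg_left (Real.exp_le_exp.2 ?_) hba.le) hmain.1
    linarith
  · refine hmain.2.trans (mul_le_mul_of_nonneg_left (Real.exp_le_exp.2 ?_) hba.le)
    linarith

end Pool.Agent.Helper80.KX
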