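import Pool.Agent.Helper80.KX.X2b
import Pool.Agent.Helper64.KX.X1bp

/-!
# Multiples of a geometric progression: exponential moments of blocks, final form
-/

set_option autoImplicit false

namespace Pool.Agent.Helper80.KX

open MeasureTheory Set Filter Topology Pool.Agent.Helper18.GP Pool.Agent.Helper82.FK Pool.Agent.Helper78.KX

theorem block_few {θ : ℝ} (hθ : 1 < θ) (A k : ℕ) : ∃ (k' : ℕ) (δ₀ : ℝ), 0 < δ₀ ∧ δ₀ ≤ 1 ∧ ∀ δ : ℝ, 0 < δ → δ ≤ δ₀ →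
    ∀ (H : ℕ) (c : ℤ → ℂ) (p : ℝ → ℝ), TC A δ H c p → ∀ D : ℕ, ((D : ℝ) + 1) ^ 2 * δ ≤ 1 → Few θ (k' * (H + 1)) k' D →
    ∀ t, 0 ≤ t → t ≤ 2 * A * δ → ∀ L : ℕ, L * δ ^ k ≤ 1 → ∀ (κ : ℝ) (σ : ℕ → ℝ) (a b : ℝ), 0 < κ → 1 ≤ κ * (b - a) →
      (b - a) * Real.exp (L * lam p t - 1) ≤
        (∫ x in a..b, Real.exp (t * ∑ n ∈ Finset.range L, p (κ * x * θ ^ n + σ n))) ∧
      (∫ x in a..b, Real.exp (t * ∑ n ∈ Finset.range L, p (κ * x * θ ^ n + σ n))) ≤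
        (b - a) * Real.exp (L * lam p t + 1) :=
  block_few_of A k (Pool.Agent.Helper64.KX.cluster' hθ (4 * (k + 1)))

end Pool.Agent.Helper80.KX
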